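import Pool.Agent.H422R2.QA.QAWords

/-!
Counting nodes of bounded size in backward `q x + 1` trees, from the growth property `Pr`.
-/

set_option autoImplicit false
set_option linter.unusedVariables false

namespace Pool.Agent.H366R2.QA

open Finset Pool.Agent.H320R2.PD Pool.Agent.H412R2 Pool.Agent.H422R2.QA

/-- the endpoint determines the word, for given length -/
theorem Ep_inj' {q : ℕ} (hq : q.Prime) (hq2 : q ≠ 2) {E n : ℕ} {x : ℤ} {u v : List ℕ}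
    (hu : u ∈ FW E n) (hv : v ∈ FW E n) (hVu : Vd q u x) (hVv : Vd q v x)
    (h : Ep q u x = Ep q v x) : u = v := by
  have hodd := odd_of_prime hq hq2
  have hqz : (q : ℤ) ≠ 0 := by exact_mod_cast hq.pos.ne'
  induction n generalizing x u v with
  | zero =>
    have h1 := (mem_FW.1 hu).1
    have h2 := (mem_FW.1 hv).1
    rw [List.length_eq_zero_iff] at h1 h2
    rw [h1, h2]
  | succ n ih =>
    obtain ⟨e, u', rfl⟩ : ∃ e u', u = e :: u' := by
      have h1 := (mem_FW.1 hu).1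
      cases u with
      | nil => simp at h1
      | cons e u' => exact ⟨e, u', rfl⟩
    obtain ⟨e', v', rfl⟩ : ∃ e v', v = e :: v' := by
      have h1 := (mem_FW.1 hv).1
      cases v with
      | nil => simp at h1
      | cons e v' => exact ⟨e, v', rfl⟩
    obtain ⟨⟨he1, he2⟩, hu'⟩ := FW_cons.1 hu
    obtain ⟨⟨he1', he2'⟩, hv'⟩ := FW_cons.1 hv
    have hcu : e :: u' = [e] ++ u' := rfl
    have hcv : e' :: v' = [e'] ++ v' := rfl
    rw [hcu] at hVu h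
    rw [hcv] at hVv h
    obtain ⟨hu1, hu2⟩ := (Vd_append hq hq2 [e] u' x).1 hVu
    obtain ⟨hv1, hv2⟩ := (Vd_append hq hq2 [e'] v' x).1 hVv
    rw [Ep_append hq hq2 hu1, Ep_append hq hq2 hv1] at h
    have hb : (q : ℤ) * Ep q [e] x + 1 = 2 ^ e * x := by
      have := (Vd_single q e x).1 hu1
      rw [Ep_single, Int.mul_ediv_cancel' this]
      ring
    have hb' : (q : ℤ) * Ep q [e'] x + 1 = 2 ^ e' * x := by
      have := (Vd_single q e' x).1 hv1
      rw [Ep_single, Int.mul_ediv_cancel' this]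
      ring
    have hz : Ep q u' (Ep q [e] x) ∈ tr q E n u'.sum (Ep q [e] x) :=
      (mem_tr_iff hq hq2).2 ⟨u', hu', rfl, hu2, rfl⟩
    have hz' : Ep q u' (Ep q [e] x) ∈ tr q E n v'.sum (Ep q [e'] x) :=
      (mem_tr_iff hq hq2).2 ⟨v', hv', rfl, hv2, h.symm⟩
    obtain ⟨h1, h2⟩ := tr_first hodd hq.one_lt he1 he1' hb hb' hz hz'
    subst h2
    rw [ih hu' hv' hu2 hv2 h]

/-- one block: the size of the endpoint -/
theorem block_bound {q m : ℕ} (hq : q.Prime) {w : List ℕ} {x : ℤ} (hl : w.length = m)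
    (hV : Vd q w x) (hlam : 2 * (q : ℝ) ^ m ≤ 2 ^ w.sum) :
    |(Ep q w x : ℝ)| + 2 * (q : ℝ) ^ m
      ≤ (2 : ℝ) ^ w.sum / (q : ℝ) ^ m * (|(x : ℝ)| + 2 * (q : ℝ) ^ m) := by
  have hqpos : (0 : ℝ) < (q : ℝ) ^ m := by
    have : 0 < q := hq.pos
    positivity
  have h1 := Ep_spec hV
  rw [hl] at h1
  have h2 : ((q : ℝ) ^ m) * (Ep q w x : ℝ) = 2 ^ w.sum * (x : ℝ) - (Wq q w : ℝ) := by
    exact_mod_cast h1
  have h3 : (Wq q w : ℝ) ≤ 2 ^ w.sum * (q : ℝ) ^ m := by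
    have := Wq_le hq.one_lt.le w hq.two_le
    rw [hl] at this
    exact_mod_cast this
  have h3' : (0 : ℝ) ≤ (Wq q w : ℝ) := Nat.cast_nonneg _
  have h4 : (Ep q w x : ℝ) = (2 ^ w.sum * (x : ℝ) - (Wq q w : ℝ)) / (q : ℝ) ^ m := by
    rw [eq_div_iff hqpos.ne', mul_comm]
    exact h2
  have h5 : |(Ep q w x : ℝ)| ≤ (2 ^ w.sum * |(x : ℝ)| + 2 ^ w.sum * (q : ℝ) ^ m) / (q : ℝ) ^ m := by
    rw [h4, abs_div, abs_of_pos hqpos]
    apply div_le_div_of_nonneg_right _ hqpos.le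
    have h6 : |2 ^ w.sum * (x : ℝ) - (Wq q w : ℝ)| ≤ |2 ^ w.sum * (x : ℝ)| + |(Wq q w : ℝ)| :=
      abs_sub _ _
    rw [abs_mul, abs_of_nonneg h3', abs_of_pos (by positivity : (0 : ℝ) < 2 ^ w.sum)] at h6
    linarith
  have h6 : (2 : ℝ) ^ w.sum / (q : ℝ) ^ m * (|(x : ℝ)| + 2 * (q : ℝ) ^ m)
      = (2 ^ w.sum * |(x : ℝ)| + 2 ^ w.sum * (q : ℝ) ^ m) / (q : ℝ) ^ m + 2 ^ w.sum := by
    field_simp
    ring
  rw [h6]
  linarith

/-- growth along blocks -/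
theorem blocks {q E m : ℕ} (hq : q.Prime) (hq2 : q ≠ 2) (hm : 1 ≤ m) {K : ℝ} (hK : 0 ≤ K)
    {s₁ s₂ : ℕ} (hlam : 2 * (q : ℝ) ^ m ≤ 2 ^ s₁)
    (h : ∀ x : ℤ, ¬ (q : ℤ) ∣ x → ∃ s, s₁ ≤ s ∧ s ≤ s₂ ∧ K ≤ (Nq q E m s x : ℝ)) (B : ℕ) :
    ∀ x : ℤ, ¬ (q : ℤ) ∣ x → ∃ S : Finset (List ℕ), S ⊆ FW E (m * B) ∧
      (∀ w ∈ S, Vd q w x ∧ ¬ (q : ℤ) ∣ Ep q w x ∧ s₁ * B ≤ w.sum ∧ w.sum ≤ s₂ * B ∧
        |(Ep q w x : ℝ)| + 2 * (q : ℝ) ^ m
          ≤ (2 : ℝ) ^ w.sum / (q : ℝ) ^ (m * B) * (|(x : ℝ)| + 2 * (q : ℝ) ^ m)) ∧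
      K ^ B ≤ S.card := by
  classical
  induction B with
  | zero =>
    intro x hx
    refine ⟨{[]}, ?_, ?_, ?_⟩
    · simp [FW]
    · intro w hw
      rw [mem_singleton] at hw
      subst hw
      refine ⟨Vd_nil q x, ?_, ?_, ?_, ?_⟩
      · rw [Ep_nil]; exact hx
      · simp
      · simp
      · rw [Ep_nil]; simp
    · simp
  | succ B ih =>
    intro x hx
    choose! S hS1 hS2 hS3 using ih
    obtain ⟨s, hs1, hs2, hs3⟩ := h x hx
    set U := (FW E m).filter (fun w => w.sum = s ∧ Lv q w x) with hU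
    have hUcard : Nq q E m s x = U.card := by
      unfold Nq
      rw [hU]
    have hUmem : ∀ u ∈ U, u ∈ FW E m ∧ u.length = m ∧ u.sum = s ∧ Vd q u x ∧ ¬ (q : ℤ) ∣ Ep q u x := by
      intro u hu
      rw [hU, mem_filter] at hu
      exact ⟨hu.1, (mem_FW.1 hu.1).1, hu.2.1, hu.2.2.1, hu.2.2.2⟩
    refine ⟨U.biUnion (fun u => (S (Ep q u x)).image (fun v => u ++ v)), ?_, ?_, ?_⟩
    · intro w hw
      rw [mem_biUnion] at hw
      obtain ⟨u, hu, hw⟩ := hw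
      rw [mem_image] at hw
      obtain ⟨v, hv, rfl⟩ := hw
      obtain ⟨hu1, hu2, hu3, hu4, hu5⟩ := hUmem u hu
      have hv' := hS1 _ hu5 hv
      rw [mem_FW] at hu1 hv' ⊢
      refine ⟨?_, ?_⟩
      · rw [List.length_append, hu1.1, hv'.1]; ring
      · intro e he
        rcases List.mem_append.1 he with he | he
        · exact hu1.2 e he
        · exact hv'.2 e he
    · intro w hw
      rw [mem_biUnion] at hw
      obtain ⟨u, hu, hw⟩ := hw
      rw [mem_image] at hw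
      obtain ⟨v, hv, rfl⟩ := hw
      obtain ⟨hu1, hu2, hu3, hu4, hu5⟩ := hUmem u hu
      obtain ⟨h1, h2, h3, h4, h5⟩ := hS2 _ hu5 v hv
      refine ⟨(Vd_append hq hq2 u v x).2 ⟨hu4, h1⟩, ?_, ?_, ?_, ?_⟩
      · rw [Ep_append hq hq2 hu4]; exact h2
      · rw [List.sum_append, Nat.mul_succ, hu3]; omega
      · rw [List.sum_append, Nat.mul_succ, hu3]; omega
      · rw [Ep_append hq hq2 hu4]
        have hlam' : 2 * (q : ℝ) ^ m ≤ 2 ^ u.sum :=
          hlam.trans (pow_le_pow_right₀ (by norm_num) (by rw [hu3]; exact hs1))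
        have h6 := block_bound hq hu2 hu4 hlam'
        have hqpos : (0 : ℝ) < (q : ℝ) ^ m := by
          have : 0 < q := hq.pos
          positivity
        have h7 : (0 : ℝ) ≤ (2 : ℝ) ^ v.sum / (q : ℝ) ^ (m * B) := by positivity
        refine h5.trans ((mul_le_mul_of_nonneg_left h6 h7).trans (le_of_eq ?_))
        rw [List.sum_append, pow_add, Nat.mul_succ, pow_add]
        field_simp
    · rw [card_biUnion]
      · push_cast
        have h1 : ∀ u ∈ U, K ^ B ≤ (((S (Ep q u x)).image (fun v => u ++ v)).card : ℝ) := by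
          intro u hu
          rw [card_image_of_injective _ (fun v v' hvv => List.append_cancel_left hvv)]
          exact hS3 _ (hUmem u hu).2.2.2.2
        calc K ^ (B + 1) = K * K ^ B := by ring
          _ ≤ (Nq q E m s x : ℝ) * K ^ B := mul_le_mul_of_nonneg_right hs3 (pow_nonneg hK _)
          _ = ∑ u ∈ U, K ^ B := by rw [sum_const, nsmul_eq_mul, hUcard]
          _ ≤ _ := sum_le_sum h1
      · intro u hu u' hu' hne
        rw [Function.onFun, Finset.disjoint_left]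
        intro w hw hw'
        rw [mem_image] at hw hw'
        obtain ⟨v, _, rfl⟩ := hw
        obtain ⟨v', _, hvv⟩ := hw'
        have h1 := (hUmem u hu).2.1
        have h2 := (hUmem u' hu').2.1
        exact hne (List.append_inj hvv (by rw [h1, h2])).1.symm

/-- many nodes of the tree of bounded size -/
theorem count_blocks {q E m : ℕ} (hq : q.Prime) (hq2 : q ≠ 2) (hm : 1 ≤ m) {K : ℝ} (hK : 0 ≤ K)
    {s₁ s₂ : ℕ} (hlam : 2 * (q : ℝ) ^ m ≤ 2 ^ s₁)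
    (h : ∀ x : ℤ, ¬ (q : ℤ) ∣ x → ∃ s, s₁ ≤ s ∧ s ≤ s₂ ∧ K ≤ (Nq q E m s x : ℝ)) (B : ℕ)
    (x : ℤ) (hx : ¬ (q : ℤ) ∣ x) : ∃ F : Finset ℤ,
      (∀ z ∈ F, ¬ (q : ℤ) ∣ z ∧ (∃ s, z ∈ tr q E (m * B) s x) ∧
        |(z : ℝ)| ≤ ((2 : ℝ) ^ s₂ / (q : ℝ) ^ m) ^ B * (|(x : ℝ)| + 2 * (q : ℝ) ^ m)) ∧
      K ^ B ≤ F.card := by
  classical
  obtain ⟨S, hS1, hS2, hS3⟩ := blocks hq hq2 hm hK hlam h B x hx
  refine ⟨S.image (fun w => Ep q w x), ?_, ?_⟩
  · intro z hz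
    rw [mem_image] at hz
    obtain ⟨w, hw, rfl⟩ := hz
    obtain ⟨h1, h2, h3, h4, h5⟩ := hS2 w hw
    refine ⟨h2, ⟨w.sum, (mem_tr_iff hq hq2).2 ⟨w, hS1 hw, rfl, h1, rfl⟩⟩, ?_⟩
    have hqpos : (0 : ℝ) < (q : ℝ) ^ m := by
      have : 0 < q := hq.pos
      positivity
    have h6 : (2 : ℝ) ^ w.sum / (q : ℝ) ^ (m * B) ≤ ((2 : ℝ) ^ s₂ / (q : ℝ) ^ m) ^ B := by
      rw [div_pow, ← pow_mul, ← pow_mul]
      have : (0 : ℝ) < (q : ℝ) ^ (m * B) := by
        have : 0 < q := hq.pos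
        positivity
      apply div_le_div_of_nonneg_right _ this.le
      exact pow_le_pow_right₀ (by norm_num) h4
    have h7 : (0 : ℝ) ≤ |(x : ℝ)| + 2 * (q : ℝ) ^ m := by positivity
    have h8 := mul_le_mul_of_nonneg_right h6 h7
    linarith
  · rw [card_image_of_injOn]
    · exact hS3
    · intro w hw w' hw' hww
      exact Ep_inj' hq hq2 (hS1 hw) (hS1 hw') (hS2 w hw).1 (hS2 w' hw').1 hww

/-- power lower bound for the number of nodes, uniform in the root -/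
theorem count_pow {q E m : ℕ} (hq : q.Prime) (hq2 : q ≠ 2) (hm : 1 ≤ m) {K η : ℝ} (hη : 0 ≤ η)
    {s₁ s₂ : ℕ} (hlam : 2 * (q : ℝ) ^ m ≤ 2 ^ s₁)
    (hKη : ((2 : ℝ) ^ s₂ / (q : ℝ) ^ m) ^ η ≤ K)
    (h : ∀ x : ℤ, ¬ (q : ℤ) ∣ x → ∃ s, s₁ ≤ s ∧ s ≤ s₂ ∧ K ≤ (Nq q E m s x : ℝ)) :
    ∃ c : ℝ, 0 < c ∧ ∀ x : ℤ, ¬ (q : ℤ) ∣ x → ∀ X : ℝ, |(x : ℝ)| ≤ X → ∃ F : Finset ℤ,
      (∀ z ∈ F, ¬ (q : ℤ) ∣ z ∧ |(z : ℝ)| ≤ X ∧ ∃ n s, z ∈ tr q E n s x) ∧
        c * (X / |(x : ℝ)|) ^ η ≤ F.card := by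
  have hqpos : (0 : ℝ) < (q : ℝ) ^ m := by
    have : 0 < q := hq.pos
    positivity
  have hs12 : s₁ ≤ s₂ := by
    obtain ⟨s, h1, h2, _⟩ := h 1 (by
      intro hd
      have := Int.le_of_dvd one_pos hd
      have h2 := hq.two_le
      omega)
    exact h1.trans h2
  set Λ : ℝ := (2 : ℝ) ^ s₂ / (q : ℝ) ^ m with hΛ
  have hΛ2 : 2 ≤ Λ := by
    rw [hΛ, le_div_iff₀ hqpos]
    exact hlam.trans (pow_le_pow_right₀ (by norm_num) hs12)
  have hΛ0 : 0 < Λ := by linarith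
  have hK0 : 0 ≤ K := (Real.rpow_nonneg hΛ0.le _).trans hKη
  set C : ℝ := 1 + 2 * (q : ℝ) ^ m with hC
  have hC1 : 1 ≤ C := by rw [hC]; linarith
  refine ⟨((C * Λ) ^ η)⁻¹, by positivity, ?_⟩
  intro x hx X hX
  have hx0 : x ≠ 0 := by rintro rfl; exact hx (dvd_zero _)
  have hxa : 1 ≤ |(x : ℝ)| := by
    have : 1 ≤ |x| := Int.one_le_abs hx0
    exact_mod_cast this
  set ρ : ℝ := X / |(x : ℝ)| with hρ
  have hρ1 : 1 ≤ ρ := by
    rw [hρ, le_div_iff₀ (by linarith)]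
    linarith
  rcases lt_or_ge ρ C with hlt | hge
  · refine ⟨{x}, ?_, ?_⟩
    · intro z hz
      rw [mem_singleton] at hz
      subst hz
      exact ⟨hx, hX, 0, 0, by simp [tr]⟩
    · rw [card_singleton, Nat.cast_one, inv_mul_le_iff₀ (by positivity), mul_one]
      apply Real.rpow_le_rpow (by linarith) _ hη
      nlinarith
  · -- the number of blocks
    obtain ⟨B, hB1, hB2⟩ := exists_nat_pow_near (x := ρ / C) (y := Λ)
      (by rw [le_div_iff₀ (by linarith)]; linarith) (by linarith)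
    obtain ⟨F, hF1, hF2⟩ := count_blocks hq hq2 hm hK0 hlam h B x hx
    refine ⟨F, ?_, ?_⟩
    · intro z hz
      obtain ⟨h1, ⟨s, h2⟩, h3⟩ := hF1 z hz
      refine ⟨h1, ?_, m * B, s, h2⟩
      have h4 : |(x : ℝ)| + 2 * (q : ℝ) ^ m ≤ C * |(x : ℝ)| := by
        rw [hC]; nlinarith
      calc |(z : ℝ)| ≤ Λ ^ B * (|(x : ℝ)| + 2 * (q : ℝ) ^ m) := h3
        _ ≤ ρ / C * (C * |(x : ℝ)|) := by
            apply mul_le_mul hB1 h4 (by positivity) (by positivity)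
        _ = X := by
            rw [hρ]
            field_simp
    · refine le_trans ?_ hF2
      rw [inv_mul_le_iff₀ (by positivity)]
      have h5 : ρ ≤ C * Λ * Λ ^ B := by
        rw [div_lt_iff₀ (by linarith)] at hB2
        rw [pow_succ] at hB2
        linarith [hB2]
      calc ρ ^ η ≤ (C * Λ * Λ ^ B) ^ η := Real.rpow_le_rpow (by linarith) h5 hη
        _ = (C * Λ) ^ η * (Λ ^ η) ^ B := by
            rw [Real.mul_rpow (by positivity) (by positivity)]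
            congr 1
            rw [← Real.rpow_natCast Λ B, ← Real.rpow_mul hΛ0.le, ← Real.rpow_natCast (Λ ^ η) B,
              ← Real.rpow_mul hΛ0.le, mul_comm]
        _ ≤ (C * Λ) ^ η * K ^ B := by
            apply mul_le_mul_of_nonneg_left _ (by positivity)
            exact pow_le_pow_left₀ (by positivity) hKη B

/-- from `Pr` to counting: every exponent below `g/(a log 2 - log q)` -/
theorem count_of_Pr {q E : ℕ} (hq : q.Prime) (hq2 : q ≠ 2) {g a η : ℝ} (hη : 0 ≤ η)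
    (h : Pr q E g a) (ha : Real.log q < a * Real.log 2)
    (hg : η * (a * Real.log 2 - Real.log q) < g) :
    ∃ c : ℝ, 0 < c ∧ ∀ x : ℤ, ¬ (q : ℤ) ∣ x → ∀ X : ℝ, |(x : ℝ)| ≤ X → ∃ F : Finset ℤ,
      (∀ z ∈ F, ¬ (q : ℤ) ∣ z ∧ |(z : ℝ)| ≤ X ∧ ∃ n s, z ∈ tr q E n s x) ∧
        c * (X / |(x : ℝ)|) ^ η ≤ F.card := by
  have hl2 : 0 < Real.log 2 := Real.log_pos (by norm_num)
  have hlq : 0 < Real.log q := Real.log_pos (by exact_mod_cast hq.one_lt)
  have ha0 : 0 < a := by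
    by_contra hneg
    push Not at hneg
    nlinarith
  -- choice of `ε`
  obtain ⟨ε, hε, hε1, hε2⟩ : ∃ ε : ℝ, 0 < ε ∧ η * ((a + ε) * Real.log 2 - Real.log q) ≤ g - ε ∧
      Real.log q < (a - ε) * Real.log 2 := by
    set d := g - η * (a * Real.log 2 - Real.log q) with hd
    have hd0 : 0 < d := by rw [hd]; linarith
    set d' := a * Real.log 2 - Real.log q with hd'
    have hd0' : 0 < d' := by rw [hd']; linarith
    refine ⟨min (d / (1 + η * Real.log 2)) (d' / (2 * Real.log 2)), ?_, ?_, ?_⟩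
    · apply lt_min <;> positivity
    · have h1 := min_le_left (d / (1 + η * Real.log 2)) (d' / (2 * Real.log 2))
      rw [le_div_iff₀ (by positivity)] at h1
      rw [hd] at h1
      linarith
    · have h1 := min_le_right (d / (1 + η * Real.log 2)) (d' / (2 * Real.log 2))
      rw [le_div_iff₀ (by positivity)] at h1
      rw [hd'] at h1
      linarith
  obtain ⟨n₀, hn₀⟩ := h ε hε
  -- choice of the block length
  set δ := (a - ε) * Real.log 2 - Real.log q with hδ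
  have hδ0 : 0 < δ := by rw [hδ]; linarith
  obtain ⟨m₁, hm₁⟩ := exists_nat_ge (Real.log 2 / δ)
  set m := max (max n₀ m₁) 1 with hm
  have hm1 : 1 ≤ m := le_max_right _ _
  have hmn : n₀ ≤ m := (le_max_left _ _).trans (le_max_left _ _)
  have hmm : Real.log 2 ≤ δ * m := by
    have h1 : (m₁ : ℝ) ≤ m := by exact_mod_cast (le_max_right n₀ m₁).trans (le_max_left _ _)
    have h2 : Real.log 2 / δ ≤ m := hm₁.trans h1
    rwa [div_le_iff₀ hδ0, mul_comm] at h2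
  have hm0 : (0 : ℝ) < m := by exact_mod_cast hm1
  have hae : 0 < a - ε := by
    by_contra hneg
    push Not at hneg
    nlinarith
  have hlogq : (q : ℝ) ^ m = Real.exp (m * Real.log q) := by
    rw [← Real.log_pow, Real.exp_log (by have := hq.pos; positivity)]
  have hlog2 : ∀ s : ℕ, (2 : ℝ) ^ s = Real.exp (s * Real.log 2) := by
    intro s
    rw [← Real.log_pow, Real.exp_log (by positivity)]
  refine count_pow hq hq2 hm1 (K := Real.exp ((g - ε) * m)) hη (s₁ := ⌈(a - ε) * m⌉₊)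
    (s₂ := ⌊(a + ε) * m⌋₊) ?_ ?_ ?_
  · have h1 : (a - ε) * m ≤ (⌈(a - ε) * m⌉₊ : ℝ) := Nat.le_ceil _
    rw [hlogq, hlog2]
    have h2 : (2 : ℝ) = Real.exp (Real.log 2) := (Real.exp_log (by norm_num)).symm
    calc 2 * Real.exp (m * Real.log q) = Real.exp (Real.log 2) * Real.exp (m * Real.log q) := by
          rw [← h2]
      _ = Real.exp (Real.log 2 + m * Real.log q) := by rw [Real.exp_add]
      _ ≤ _ := by
          rw [Real.exp_le_exp]
          have h3 : (a - ε) * m * Real.log 2 ≤ (⌈(a - ε) * m⌉₊ : ℝ) * Real.log 2 :=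
            mul_le_mul_of_nonneg_right h1 hl2.le
          rw [hδ] at hmm
          nlinarith
  · have h1 : (⌊(a + ε) * m⌋₊ : ℝ) ≤ (a + ε) * m := Nat.floor_le (by positivity)
    rw [hlogq, hlog2, ← Real.exp_sub, ← Real.exp_mul, Real.exp_le_exp]
    have h3 : (⌊(a + ε) * m⌋₊ : ℝ) * Real.log 2 ≤ (a + ε) * m * Real.log 2 :=
      mul_le_mul_of_nonneg_right h1 hl2.le
    have h4 : ((⌊(a + ε) * m⌋₊ : ℝ) * Real.log 2 - m * Real.log q) * η
        ≤ ((a + ε) * m * Real.log 2 - m * Real.log q) * η :=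
      mul_le_mul_of_nonneg_right (by linarith) hη
    have h5 := mul_le_mul_of_nonneg_right hε1 hm0.le
    nlinarith
  · intro x hx
    obtain ⟨s, hs1, hs2⟩ := hn₀ m hmn x hx
    rw [abs_le] at hs1
    refine ⟨s, ?_, ?_, hs2⟩
    · rw [Nat.ceil_le]
      linarith
    · exact Nat.le_floor (by linarith)

/-! ### the forward map -/

/-- the `q x + 1` map -/
def Tq (q : ℕ) (z : ℤ) : ℤ := if z % 2 = 0 then z / 2 else ((q : ℤ) * z + 1) / 2

theorem Tq_pow_two (q : ℕ) (e : ℕ) (x : ℤ) : (Tq q)^[e] (2 ^ e * x) = x := by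
  induction e with
  | zero => simp
  | succ e ih =>
    rw [Function.iterate_succ_apply]
    have h1 : (2 : ℤ) ^ (e + 1) * x = 2 * (2 ^ e * x) := by ring
    have h2 : Tq q (2 ^ (e + 1) * x) = 2 ^ e * x := by
      unfold Tq
      rw [h1, if_pos (by omega)]
      omega
    rw [h2, ih]

theorem Tq_letter {q e : ℕ} (hq : Odd q) {x b : ℤ} (he : 1 ≤ e)
    (hb : (q : ℤ) * b + 1 = 2 ^ e * x) : (Tq q)^[e] b = x := by
  obtain ⟨e, rfl⟩ := Nat.exists_eq_add_of_le' he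
  have h1 := odd_child hq (by omega) hb
  rw [Function.iterate_succ_apply]
  have h2 : Tq q b = 2 ^ e * x := by
    unfold Tq
    have h3 : b % 2 = 1 := Int.odd_iff.1 h1
    rw [if_neg (by omega), hb]
    have : (2 : ℤ) ^ (e + 1) * x = 2 * (2 ^ e * x) := by ring
    omega
  rw [h2, Tq_pow_two]

theorem tr_forward {q E n s : ℕ} (hq : Odd q) {x z : ℤ} (h : z ∈ tr q E n s x) :
    (Tq q)^[s] z = x := by
  induction n generalizing s x with
  | zero =>
    obtain ⟨rfl, rfl⟩ := mem_tr_zero.1 h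
    rfl
  | succ n ih =>
    obtain ⟨e, b, he1, he2, he3, hb, hz⟩ := (mem_tr_succ hq.pos).1 h
    have h1 := ih hz
    have h2 : s = e + (s - e) := by omega
    rw [h2, Function.iterate_add_apply, h1]
    exact Tq_letter hq he1 hb

theorem tr_pos {q E n s : ℕ} (hq : 0 < q) {x z : ℤ} (hx : 0 < x) (h : z ∈ tr q E n s x) :
    0 < z := by
  induction n generalizing s x with
  | zero =>
    obtain ⟨rfl, rfl⟩ := mem_tr_zero.1 h
    exact hx
  | succ n ih =>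
    obtain ⟨e, b, he1, he2, he3, hb, hz⟩ := (mem_tr_succ hq).1 h
    refine ih ?_ hz
    have h1 : 2 ≤ (2 : ℤ) ^ e * x := by
      have h3 : (2 : ℤ) ^ 1 ≤ 2 ^ e := pow_le_pow_right₀ (by norm_num) he1
      nlinarith
    have h2 : 0 < (q : ℤ) * b := by linarith
    exact (pos_iff_pos_of_mul_pos h2).1 (by exact_mod_cast hq)

end Pool.Agent.H366R2.QA
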