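import Pool.Agent.H366R2.QA.Count

/-!
The constant `η₅ = 0.650919...` of the `5x+1` map: `2^η = 1 + 5^(η-1)`.
-/

set_option autoImplicit false
set_option linter.unusedVariables false

namespace Pool.Agent.H366R2.QA

open Finset Pool.Agent.H320R2.PD Pool.Agent.H412R2 Pool.Agent.H422R2.QA Filter Topology

/-! ### limits as the letter cap tends to infinity -/

theorem sum_Icc_range (f : ℕ → ℝ) (E : ℕ) :
    ∑ e ∈ Icc 1 E, f e = ∑ e ∈ range (E + 1), f e - f 0 := by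
  induction E with
  | zero => simp
  | succ E ih =>
    rw [Finset.sum_Icc_succ_top (by omega), ih, Finset.sum_range_succ _ (E + 1)]
    ring

theorem tendsto_Az {z : ℝ} (h0 : 0 < z) (h1 : z < 1) :
    Tendsto (fun E => Az z E) atTop (𝓝 (z / (1 - z))) := by
  have h2 := (hasSum_geometric_of_lt_one h0.le h1).tendsto_sum_nat
  have h3 := (h2.comp (tendsto_add_atTop_nat 1)).sub_const 1
  have h4 : (1 - z)⁻¹ - 1 = z / (1 - z) := by
    have : 1 - z ≠ 0 := by linarith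
    field_simp
    ring
  rw [h4] at h3
  refine h3.congr fun E => ?_
  unfold Az
  rw [sum_Icc_range]
  simp

theorem tendsto_Mz {z : ℝ} (h0 : 0 < z) (h1 : z < 1) :
    Tendsto (fun E : ℕ => ∑ e ∈ Icc 1 E, (e : ℝ) * z ^ e) atTop (𝓝 (z / (1 - z) ^ 2)) := by
  have h2 := (hasSum_coe_mul_geometric_of_norm_lt_one (𝕜 := ℝ) (r := z)
    (by rw [Real.norm_eq_abs, abs_of_pos h0]; exact h1)).tendsto_sum_nat
  have h3 := h2.comp (tendsto_add_atTop_nat 1)
  refine h3.congr fun E => ?_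
  rw [sum_Icc_range]
  simp

theorem az_eq (z : ℝ) (E : ℕ) : az z E = (∑ e ∈ Icc 1 E, (e : ℝ) * z ^ e) / Az z E := by
  unfold az uz
  rw [sum_div]
  refine sum_congr rfl fun e _ => ?_
  ring

theorem tendsto_az {z : ℝ} (h0 : 0 < z) (h1 : z < 1) :
    Tendsto (fun E => az z E) atTop (𝓝 (1 / (1 - z))) := by
  have h2 := (tendsto_Mz h0 h1).div (tendsto_Az h0 h1) (by
    have : 0 < 1 - z := by linarith
    positivity)
  have h3 : z / (1 - z) ^ 2 / (z / (1 - z)) = 1 / (1 - z) := by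
    have : 1 - z ≠ 0 := by linarith
    field_simp
  rw [h3] at h2
  refine h2.congr fun E => ?_
  rw [az_eq]
  rfl

theorem tendsto_Gz (q : ℕ) {z : ℝ} (h0 : 0 < z) (h1 : z < 1) :
    Tendsto (fun E => Gz q z E) atTop
      (𝓝 (Real.log (z / (1 - z)) - 1 / (1 - z) * Real.log z - Real.log q)) := by
  have h3 : z / (1 - z) ≠ 0 := by
    have : 0 < 1 - z := by linarith
    positivity
  exact (((tendsto_Az h0 h1).log h3).sub ((tendsto_az h0 h1).mul_const _)).sub_const _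

/-! ### the constant -/

theorem rpow_lt_of_pow {b c : ℝ} (hb : 0 < b) (hc : 0 < c) {m n : ℕ} (hn : 0 < n)
    (h : b ^ m < c ^ n) : b ^ ((m : ℝ) / n) < c := by
  by_contra hcon
  push Not at hcon
  have h1 : c ^ n ≤ (b ^ ((m : ℝ) / n)) ^ n := pow_le_pow_left₀ hc.le hcon n
  have h2 : (b ^ ((m : ℝ) / n)) ^ n = b ^ m := by
    rw [← Real.rpow_natCast (b ^ ((m : ℝ) / n)) n, ← Real.rpow_mul hb.le]
    have : (m : ℝ) / n * n = m := by
      have : (n : ℝ) ≠ 0 := by exact_mod_cast hn.ne'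
      field_simp
    rw [this, Real.rpow_natCast]
  linarith

theorem lt_rpow_of_pow {b c : ℝ} (hb : 0 < b) (hc : 0 < c) {m n : ℕ} (hn : 0 < n)
    (h : c ^ n < b ^ m) : c < b ^ ((m : ℝ) / n) := by
  by_contra hcon
  push Not at hcon
  have h1 : (b ^ ((m : ℝ) / n)) ^ n ≤ c ^ n := pow_le_pow_left₀ (by positivity) hcon n
  have h2 : (b ^ ((m : ℝ) / n)) ^ n = b ^ m := by
    rw [← Real.rpow_natCast (b ^ ((m : ℝ) / n)) n, ← Real.rpow_mul hb.le]
    have : (m : ℝ) / n * n = m := by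
      have : (n : ℝ) ≠ 0 := by exact_mod_cast hn.ne'
      field_simp
    rw [this, Real.rpow_natCast]
  linarith

/-- the defining function -/
noncomputable def f5 (η : ℝ) : ℝ := 2 ^ η - 1 - 5 ^ (η - 1)

theorem f5_cont : Continuous f5 := by
  unfold f5
  have h1 : Continuous fun η : ℝ => (2 : ℝ) ^ η :=
    Real.continuous_const_rpow (by norm_num)
  have h2 : Continuous fun η : ℝ => (5 : ℝ) ^ (η - 1) :=
    (Real.continuous_const_rpow (by norm_num)).comp (continuous_id.sub continuous_const)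
  exact (h1.sub continuous_const).sub h2

set_option exponentiation.threshold 1000 in
theorem f5_lo : f5 (179 / 275) < 0 := by
  unfold f5
  have h1 : (2 : ℝ) ^ (((179 : ℕ) : ℝ) / ((275 : ℕ) : ℝ)) < 15701581 / 10000000 := by
    apply rpow_lt_of_pow (by norm_num) (by norm_num) (by norm_num)
    norm_num
  have h2 : (5701581 / 10000000 : ℝ) < (1 / 5 : ℝ) ^ (((96 : ℕ) : ℝ) / ((275 : ℕ) : ℝ)) := by
    apply lt_rpow_of_pow (by norm_num) (by norm_num) (by norm_num)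
    norm_num
  have h3 : (5 : ℝ) ^ ((179 / 275 : ℝ) - 1) = (1 / 5 : ℝ) ^ (((96 : ℕ) : ℝ) / ((275 : ℕ) : ℝ)) := by
    rw [one_div, Real.inv_rpow (by norm_num), ← Real.rpow_neg (by norm_num)]
    congr 1
    norm_num
  rw [h3]
  push_cast at *
  linarith

theorem f5_hi : 0 < f5 (69 / 106) := by
  unfold f5
  have h1 : (15701930 / 10000000 : ℝ) < (2 : ℝ) ^ (((69 : ℕ) : ℝ) / ((106 : ℕ) : ℝ)) := by
    apply lt_rpow_of_pow (by norm_num) (by norm_num) (by norm_num)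
    norm_num
  have h2 : (1 / 5 : ℝ) ^ (((37 : ℕ) : ℝ) / ((106 : ℕ) : ℝ)) < 5701930 / 10000000 := by
    apply rpow_lt_of_pow (by norm_num) (by norm_num) (by norm_num)
    norm_num
  have h3 : (5 : ℝ) ^ ((69 / 106 : ℝ) - 1) = (1 / 5 : ℝ) ^ (((37 : ℕ) : ℝ) / ((106 : ℕ) : ℝ)) := by
    rw [one_div, Real.inv_rpow (by norm_num), ← Real.rpow_neg (by norm_num)]
    congr 1
    norm_num
  rw [h3]
  push_cast at *
  linarith

theorem exists_eta : ∃ η : ℝ, 0.6509 < η ∧ η < 0.65095 ∧ (2 : ℝ) ^ η = 1 + 5 ^ (η - 1) := by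
  have h1 := intermediate_value_Ioo (by norm_num : (179 / 275 : ℝ) ≤ 69 / 106)
    (f5_cont.continuousOn)
  obtain ⟨η, ⟨h2, h3⟩, h4⟩ := h1 ⟨f5_lo, f5_hi⟩
  refine ⟨η, ?_, ?_, ?_⟩
  · have : (0.6509 : ℝ) < 179 / 275 := by norm_num
    linarith
  · have : (69 / 106 : ℝ) < 0.65095 := by norm_num
    linarith
  · unfold f5 at h4
    linarith

/-- for every exponent below `η₅` there is a good tilt -/
theorem exists_tilt {η₅ η : ℝ} (h1 : 0.6509 < η₅) (h2 : η₅ < 0.65095)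
    (h3 : (2 : ℝ) ^ η₅ = 1 + 5 ^ (η₅ - 1)) (hη0 : 0 ≤ η) (hη : η < η₅) :
    ∃ (z : ℝ) (E : ℕ), 0 < z ∧ 54 ≤ E ∧ 0 < Gz 5 z E ∧ Real.log 5 < az z E * Real.log 2 ∧
      η * (az z E * Real.log 2 - Real.log 5) < Gz 5 z E := by
  set z : ℝ := 2 ^ (-η₅) with hz
  have hz0 : 0 < z := by positivity
  have hz1 : z < 1 := by
    rw [hz]
    exact Real.rpow_lt_one_of_one_lt_of_neg (by norm_num) (by linarith)
  have hz2 : (0.6297 : ℝ) < z := by
    rw [hz, Real.rpow_neg (by norm_num)]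
    have h4 : (2 : ℝ) ^ η₅ < 1.588 := by
      have h5 : (2 : ℝ) ^ η₅ < 2 ^ (((2 : ℕ) : ℝ) / ((3 : ℕ) : ℝ)) :=
        Real.rpow_lt_rpow_of_exponent_lt (by norm_num) (by push_cast; linarith)
      have h6 : (2 : ℝ) ^ (((2 : ℕ) : ℝ) / ((3 : ℕ) : ℝ)) < 1.588 :=
        rpow_lt_of_pow (by norm_num) (by norm_num) (by norm_num) (by norm_num)
      linarith
    rw [lt_inv_comm₀ (by norm_num) (by positivity)]
    refine h4.trans (by norm_num)
  have h1z : 0 < 1 - z := by linarith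
  have hl2 : 0 < Real.log 2 := Real.log_pos (by norm_num)
  have hl5 : 0 < Real.log 5 := Real.log_pos (by norm_num)
  -- `log 5 < a∞ log 2`
  have ha : Real.log 5 < 1 / (1 - z) * Real.log 2 := by
    have h4 : (2.7 : ℝ) < 1 / (1 - z) := by
      rw [lt_div_iff₀ h1z]
      linarith
    have h5 : 10 * Real.log 5 < 27 * Real.log 2 := by
      have h6 : Real.log ((5 : ℝ) ^ 10) < Real.log ((2 : ℝ) ^ 27) :=
        Real.log_lt_log (by norm_num) (by norm_num)
      rw [Real.log_pow, Real.log_pow] at h6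
      push_cast at h6
      exact h6
    nlinarith
  -- the value of the limit
  have hlogz : Real.log z = -η₅ * Real.log 2 := by
    rw [hz, Real.log_rpow (by norm_num)]
  have hAz : Real.log (z / (1 - z)) = (1 - η₅) * Real.log 5 := by
    have h4 : z / (1 - z) = (5 : ℝ) ^ (1 - η₅) := by
      have h5 : (2 : ℝ) ^ η₅ * z = 1 := by
        rw [hz, ← Real.rpow_add (by norm_num)]
        simp
      have h6 : (5 : ℝ) ^ (1 - η₅) * 5 ^ (η₅ - 1) = 1 := by
        rw [← Real.rpow_add (by norm_num)]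
        simp
      rw [div_eq_iff h1z.ne']
      rw [h3] at h5
      have h7 : (5 : ℝ) ^ (1 - η₅) * (1 - z) = (5 : ℝ) ^ (1 - η₅) * (5 ^ (η₅ - 1) * z) := by
        congr 1
        linarith
      rw [h7, ← mul_assoc, h6, one_mul]
    rw [h4, Real.log_rpow (by norm_num)]
  have hlim : Real.log (z / (1 - z)) - 1 / (1 - z) * Real.log z - Real.log (5 : ℕ)
      = η₅ * (1 / (1 - z) * Real.log 2 - Real.log 5) := by
    rw [hAz, hlogz]
    push_cast
    ring
  have hT1 := tendsto_Gz 5 hz0 hz1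
  rw [hlim] at hT1
  have hT2 := tendsto_az hz0 hz1
  have hT3 : Tendsto (fun E => az z E * Real.log 2 - Real.log 5) atTop
      (𝓝 (1 / (1 - z) * Real.log 2 - Real.log 5)) := (hT2.mul_const _).sub_const _
  have hT4 : Tendsto (fun E => Gz 5 z E - η * (az z E * Real.log 2 - Real.log 5)) atTop
      (𝓝 (η₅ * (1 / (1 - z) * Real.log 2 - Real.log 5)
        - η * (1 / (1 - z) * Real.log 2 - Real.log 5))) := hT1.sub (hT3.const_mul _)
  have hpos : 0 < η₅ * (1 / (1 - z) * Real.log 2 - Real.log 5)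
        - η * (1 / (1 - z) * Real.log 2 - Real.log 5) := by
    rw [← sub_mul]
    apply mul_pos <;> linarith
  have e1 := hT4.eventually (lt_mem_nhds hpos)
  have e2 := hT3.eventually (lt_mem_nhds (by linarith : 0 < 1 / (1 - z) * Real.log 2 - Real.log 5))
  obtain ⟨E, ⟨hE1, hE2⟩, hE3⟩ := ((e1.and e2).and (eventually_ge_atTop 54)).exists
  refine ⟨z, E, hz0, hE3, ?_, by linarith, by linarith⟩
  have h8 : 0 ≤ η * (az z E * Real.log 2 - Real.log 5) := mul_nonneg hη0 hE2.le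
  linarith

/-- the counting theorem for `5x+1`, from the growth theorem -/
theorem count_five
    (hmain : ∀ (z : ℝ) (E : ℕ), 0 < z → 54 ≤ E → 0 < Gz 5 z E → Pr 5 E (Gz 5 z E) (az z E))
    {η₅ η : ℝ} (h1 : 0.6509 < η₅) (h2 : η₅ < 0.65095)
    (h3 : (2 : ℝ) ^ η₅ = 1 + 5 ^ (η₅ - 1)) (hη : η < η₅) :
    ∃ c : ℝ, 0 < c ∧ ∀ x : ℤ, ¬ (5 : ℤ) ∣ x → ∀ X : ℝ, |(x : ℝ)| ≤ X → ∃ F : Finset ℤ,
      (∀ z ∈ F, ¬ (5 : ℤ) ∣ z ∧ |(z : ℝ)| ≤ X ∧ (0 < x → 0 < z) ∧ ∃ k, (Tq 5)^[k] z = x) ∧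
        c * (X / |(x : ℝ)|) ^ η ≤ F.card := by
  obtain ⟨z, E, hz, hE, hG, ha, hη'⟩ := exists_tilt (η := max η 0) h1 h2 h3 (le_max_right _ _)
    (max_lt hη (by linarith))
  obtain ⟨c, hc, hcount⟩ := count_of_Pr (q := 5) (by norm_num) (by norm_num) (le_max_right η 0)
    (hmain z E hz hE hG) (by exact_mod_cast ha) (by exact_mod_cast hη')
  refine ⟨c, hc, ?_⟩
  intro x hx X hX
  obtain ⟨F, hF1, hF2⟩ := hcount x (by exact_mod_cast hx) X hX
  refine ⟨F, ?_, ?_⟩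
  · intro y hy
    obtain ⟨h4, h5, n, s, h6⟩ := hF1 y hy
    exact ⟨by exact_mod_cast h4, h5, fun hx0 => tr_pos (by norm_num) hx0 h6, s,
      tr_forward (by decide) h6⟩
  · refine le_trans ?_ hF2
    have hx0 : x ≠ 0 := by rintro rfl; exact hx (dvd_zero _)
    have hxa : 1 ≤ |(x : ℝ)| := by
      have : 1 ≤ |x| := Int.one_le_abs hx0
      exact_mod_cast this
    have hρ : 1 ≤ X / |(x : ℝ)| := by
      rw [le_div_iff₀ (by linarith)]
      linarith
    exact mul_le_mul_of_nonneg_left (Real.rpow_le_rpow_of_exponent_le hρ (le_max_left _ _)) hc.le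

end Pool.Agent.H366R2.QA
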