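import Pool.Agent.H366R2.QA.Eta5

/-!
Counting integers of bounded size whose `5x+1` orbit contains a given integer, from the growth
theorem `hmain` (quenched = annealed).
-/

set_option autoImplicit false
set_option linter.unusedVariables false

namespace Pool.Agent.H366R2.QA

open Finset Pool.Agent.H320R2.PD Pool.Agent.H412R2 Pool.Agent.H422R2.QA Filter Topology

theorem Tq_five : Tq 5 = fun m : ℤ => if m % 2 = 0 then m / 2 else (5 * m + 1) / 2 := by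
  funext m
  unfold Tq
  push_cast
  rfl

theorem finite_abs_le (x : ℝ) : {n : ℤ | |(n : ℝ)| ≤ x}.Finite := by
  apply (Set.finite_Icc (-⌊x⌋ : ℤ) ⌊x⌋).subset
  intro n hn
  rw [Set.mem_ofPred_eq, abs_le] at hn
  rw [Set.mem_Icc]
  constructor
  · have h1 : ((-n : ℤ) : ℝ) ≤ x := by push_cast; linarith [hn.1]
    have := Int.le_floor.2 h1
    omega
  · exact Int.le_floor.2 hn.2

theorem ncard_abs_le {x : ℝ} (hx : 0 ≤ x) :
    (({n : ℤ | |(n : ℝ)| ≤ x}.ncard : ℕ) : ℝ) ≤ 2 * x + 1 := by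
  have h1 : {n : ℤ | |(n : ℝ)| ≤ x} ⊆ ((Finset.Icc (-⌊x⌋ : ℤ) ⌊x⌋ : Finset ℤ) : Set ℤ) := by
    intro n hn
    rw [Set.mem_ofPred_eq, abs_le] at hn
    rw [Finset.coe_Icc, Set.mem_Icc]
    constructor
    · have h1 : ((-n : ℤ) : ℝ) ≤ x := by push_cast; linarith [hn.1]
      have := Int.le_floor.2 h1
      omega
    · exact Int.le_floor.2 hn.2
  have h2 := Set.ncard_le_ncard h1 (Finset.finite_toSet _)
  rw [Set.ncard_coe_finset, Int.card_Icc] at h2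
  have h3 : (0 : ℤ) ≤ ⌊x⌋ := Int.floor_nonneg.2 hx
  have h4 : ((⌊x⌋ + 1 - -⌊x⌋).toNat : ℝ) = 2 * (⌊x⌋ : ℝ) + 1 := by
    have h5 : ((⌊x⌋ + 1 - -⌊x⌋).toNat : ℤ) = 2 * ⌊x⌋ + 1 := by omega
    exact_mod_cast h5
  have h5 : (({n : ℤ | |(n : ℝ)| ≤ x}.ncard : ℕ) : ℝ) ≤ ((⌊x⌋ + 1 - -⌊x⌋).toNat : ℝ) := by
    exact_mod_cast h2
  have h6 := Int.floor_le x
  linarith

/-- from a power lower bound to the lower growth exponent -/
theorem le_liminf_of_pow {N : ℝ → ℝ} {η₅ : ℝ} (hup : ∀ x : ℝ, 1 ≤ x → N x ≤ 2 * x + 1)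
    (hlow : ∀ η : ℝ, η < η₅ → ∃ c x₀ : ℝ, 0 < c ∧ ∀ x : ℝ, x₀ ≤ x → c * x ^ η ≤ N x) :
    (∀ η : ℝ, η < η₅ → ∀ᶠ x in atTop, η ≤ Real.log (N x) / Real.log x) ∧
    η₅ ≤ liminf (fun x : ℝ => Real.log (N x) / Real.log x) atTop := by
  have h1 : ∀ η : ℝ, η < η₅ → ∀ᶠ x in atTop, η ≤ Real.log (N x) / Real.log x := by
    intro η hη
    obtain ⟨c, x₀, hc, h⟩ := hlow ((η + η₅) / 2) (by linarith)
    have h2 : Tendsto (fun x : ℝ => (η₅ - η) / 2 * Real.log x) atTop atTop :=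
      Real.tendsto_log_atTop.const_mul_atTop (by linarith)
    filter_upwards [eventually_ge_atTop x₀, eventually_gt_atTop 1,
      h2.eventually_ge_atTop (-Real.log c)] with x hx hx1 hx2
    have hlx : 0 < Real.log x := Real.log_pos hx1
    rw [le_div_iff₀ hlx]
    have hx0 : 0 < x := by linarith
    have h3 : Real.log (c * x ^ ((η + η₅) / 2)) ≤ Real.log (N x) :=
      Real.log_le_log (by positivity) (h x hx)
    rw [Real.log_mul hc.ne' (by positivity), Real.log_rpow hx0] at h3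
    nlinarith
  refine ⟨h1, ?_⟩
  have hcob : IsCoboundedUnder (· ≥ ·) atTop (fun x : ℝ => Real.log (N x) / Real.log x) := by
    refine isCoboundedUnder_ge_of_eventually_le (x := (2 : ℝ)) atTop ?_
    obtain ⟨c, x₀, hc, h⟩ := hlow (η₅ - 1) (by linarith)
    filter_upwards [eventually_ge_atTop 3, eventually_ge_atTop x₀] with x hx hx0
    have hlx : 0 < Real.log x := Real.log_pos (by linarith)
    rw [div_le_iff₀ hlx]
    have hNpos : 0 < N x := by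
      have : 0 < c * x ^ (η₅ - 1) := by
        have : 0 < x := by linarith
        positivity
      linarith [h x hx0]
    have h3 : Real.log (N x) ≤ Real.log (x ^ 2) := by
      apply Real.log_le_log hNpos
      have := hup x (by linarith)
      nlinarith
    rw [Real.log_pow] at h3
    exact_mod_cast h3
  apply le_of_forall_lt
  intro c hc
  have h2 := h1 ((c + η₅) / 2) (by linarith)
  exact lt_of_lt_of_le (by linarith) (le_liminf_of_le hcob h2)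

/-- lower bound, uniform in the target `a` -/
theorem five_uniform
    (hmain : ∀ (z : ℝ) (E : ℕ), 0 < z → 54 ≤ E → 0 < Gz 5 z E → Pr 5 E (Gz 5 z E) (az z E))
    {η₅ η : ℝ} (h1 : 0.6509 < η₅) (h2 : η₅ < 0.65095)
    (h3 : (2 : ℝ) ^ η₅ = 1 + 5 ^ (η₅ - 1)) (hη : η < η₅) :
    ∃ c : ℝ, 0 < c ∧ ∀ a : ℤ, ¬ (5 : ℤ) ∣ a → ∀ x : ℝ, |(a : ℝ)| ≤ x →
      c * (x / |(a : ℝ)|) ^ η ≤ ((Set.ncard {n : ℤ | |(n : ℝ)| ≤ x ∧ ∃ k : ℕ,
        (fun m : ℤ => if m % 2 = 0 then m / 2 else (5 * m + 1) / 2)^[k] n = a} : ℕ) : ℝ) := by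
  obtain ⟨c, hc, h⟩ := count_five hmain h1 h2 h3 hη
  refine ⟨c, hc, ?_⟩
  intro a ha x hx
  obtain ⟨F, hF1, hF2⟩ := h a ha x hx
  refine hF2.trans ?_
  have h4 : (F : Set ℤ) ⊆ {n : ℤ | |(n : ℝ)| ≤ x ∧ ∃ k : ℕ,
        (fun m : ℤ => if m % 2 = 0 then m / 2 else (5 * m + 1) / 2)^[k] n = a} := by
    intro z hz
    obtain ⟨_, h5, _, k, h6⟩ := hF1 z hz
    refine ⟨h5, k, ?_⟩
    rw [← Tq_five]
    exact h6
  have h5 := Set.ncard_le_ncard h4 ((finite_abs_le x).subset fun n hn => hn.1)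
  rw [Set.ncard_coe_finset] at h5
  exact_mod_cast h5

/-- lower bound for positive integers reaching a positive `a` -/
theorem five_pos
    (hmain : ∀ (z : ℝ) (E : ℕ), 0 < z → 54 ≤ E → 0 < Gz 5 z E → Pr 5 E (Gz 5 z E) (az z E))
    {η₅ η : ℝ} (h1 : 0.6509 < η₅) (h2 : η₅ < 0.65095)
    (h3 : (2 : ℝ) ^ η₅ = 1 + 5 ^ (η₅ - 1)) (hη : η < η₅) :
    ∃ c : ℝ, 0 < c ∧ ∀ a : ℤ, 0 < a → ¬ (5 : ℤ) ∣ a → ∀ x : ℝ, (a : ℝ) ≤ x →
      c * (x / (a : ℝ)) ^ η ≤ ((Set.ncard {n : ℤ | 1 ≤ n ∧ (n : ℝ) ≤ x ∧ ∃ k : ℕ,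
        (fun m : ℤ => if m % 2 = 0 then m / 2 else (5 * m + 1) / 2)^[k] n = a} : ℕ) : ℝ) := by
  obtain ⟨c, hc, h⟩ := count_five hmain h1 h2 h3 hη
  refine ⟨c, hc, ?_⟩
  intro a ha0 ha x hx
  have haR : (0 : ℝ) < a := by exact_mod_cast ha0
  obtain ⟨F, hF1, hF2⟩ := h a ha x (by rw [abs_of_pos haR]; exact hx)
  rw [abs_of_pos haR] at hF2
  refine hF2.trans ?_
  have h4 : (F : Set ℤ) ⊆ {n : ℤ | 1 ≤ n ∧ (n : ℝ) ≤ x ∧ ∃ k : ℕ,
        (fun m : ℤ => if m % 2 = 0 then m / 2 else (5 * m + 1) / 2)^[k] n = a} := by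
    intro z hz
    obtain ⟨_, h5, h7, k, h6⟩ := hF1 z hz
    refine ⟨by have := h7 ha0; omega, (le_abs_self _).trans h5, k, ?_⟩
    rw [← Tq_five]
    exact h6
  have h5 := Set.ncard_le_ncard h4 ((finite_abs_le x).subset fun n hn => by
    have hn0 : (0 : ℝ) ≤ n := by
      have := hn.1
      exact_mod_cast (by omega : (0 : ℤ) ≤ n)
    rw [Set.mem_ofPred_eq, abs_of_nonneg hn0]
    exact hn.2.1)
  rw [Set.ncard_coe_finset] at h5
  exact_mod_cast h5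

/-- an orbit reaching 1 takes finitely many values -/
theorem orbit_finite {T : ℤ → ℤ} {n : ℤ} {k p : ℕ} (hp : 1 ≤ p) (h1 : T^[k] n = 1)
    (h2 : T^[p] 1 = 1) : (Set.range fun j : ℕ => T^[j] n).Finite := by
  have h3 : ∀ i : ℕ, T^[k + i] n = T^[i % p] 1 := by
    intro i
    rw [Nat.add_comm, Function.iterate_add_apply, h1]
    conv_lhs => rw [← Nat.mod_add_div i p, Function.iterate_add_apply, Function.iterate_mul]
    congr 1
    exact Function.iterate_fixed h2 _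
  apply ((Finset.range (k + p)).image (fun j => T^[j] n)).finite_toSet.subset
  rintro y ⟨j, rfl⟩
  rw [Finset.coe_image]
  rcases lt_or_ge j k with hj | hj
  · exact ⟨j, by simp; omega, rfl⟩
  · obtain ⟨i, rfl⟩ := Nat.exists_eq_add_of_le hj
    refine ⟨k + i % p, ?_, ?_⟩
    · have := Nat.mod_lt i (show 0 < p by omega)
      simp
      omega
    · simp only
      rw [h3, h3, Nat.mod_mod]

end Pool.Agent.H366R2.QA
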