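import Pool.Agent.H366R2.QA.Five
import Pool.Agent.H422R2.QA.QAMain

/-! The growth theorem for `q = 5`. -/

set_option autoImplicit false

namespace Pool.Agent.H366R2.QA

open Pool.Agent.H422R2.QA

theorem hmain5 : ∀ (z : ℝ) (E : ℕ), 0 < z → 54 ≤ E → 0 < Gz 5 z E → Pr 5 E (Gz 5 z E) (az z E) :=
  fun z E hz hE hG => main (by norm_num) (by norm_num) prim_five (by omega)
    (conn_five hE) hz hG

end Pool.Agent.H366R2.QA
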